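import Pool.Agent.Helper83.CR.All

/-!
# A loss of energy needs a dissipation above the energy-critical order

Let `u` be a Leray-Hopf weak solution in a smooth bounded domain, exactly in the class of the
problem (energy inequality from the time `0` only), and `t₀ ∈ (0, T]`. We show that kinetic energy
can be lost at `t₀` from the left only if
`(t₀ - s)^(-1/5) ∫_s^{t₀} ‖∇u‖² → ∞` as `s → t₀-`. The exponent `1/5` is the critical one: by
dimensional analysis a loss of energy requires `∫_s^{t₀} ‖∇u‖² ≥ c (t₀ - s)^(1/5)`, the length
scale being `(t₀ - s)^(2/5)`. So the quotient cannot stay bounded, not even along one sequence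
`s → t₀-`, and for instance `‖∇u(s)‖ = O((t₀ - s)^(-2/5))` excludes a loss at `t₀`, with an
arbitrary constant. There is no assumption on the size of `u` or `∇u` at single points.

Proof idea. If energy is lost at `t₀` and the quotient is bounded along `s_k → t₀-`, the flows,
rescaled with the time scale `τ_k = t₀ - s_k` and the length scale `τ_k^(2/5)` around suitable
points, are bounded in `L^∞L² ∩ L²H¹` on the time interval `(-1, 0)`, their viscosity and their
final values tend to zero, and, by the loss of energy, they do not tend to zero. By compactness they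
converge to a flow `v ≠ 0` of an ideal fluid, `v ∈ L²((-1, 0); H¹(ℝ³))`, with the final value `0`
(the no-slip condition survives at a boundary, so that the extension by zero is a solution in
`ℝ³`). Such a flow does not exist: by the commutator lemma of DiPerna and Lions the logarithm of the
vorticity `ω` is a renormalised solution of the transport equation up to the integrable term `|∇v|`,
which disappears in the limit when the logarithm is replaced by the indicator function of
`{ω ≠ 0}`; so the measure of this set is transported by `v` and is zero, since it is zero at the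
final time.
-/

open Set MeasureTheory

namespace Pool.Agent.Results.MP_a38b17_an.CriticalDissipation

open Pool.Agent.Helper52.NSE Pool.Agent.Helper7.NT Pool.Agent.Helper7.NU Pool.Agent.Helper83.CR

/-- Let `u` be a Leray-Hopf weak solution on `[0, T]` in a smooth bounded domain. At a time `t`
with `liminf_{s → t-} (t - s)^(-1/5) ∫_s^t ‖∇u‖² < ∞` no kinetic energy is lost from the left. If
every time `t ∈ (0, T]` is of Type I, or lies in a countable set and satisfies this condition, then
the energy equality holds at every time of `[0, T]`. -/
theorem result (Ω : Set E3) (hΩ : IsSmoothBoundedDomain Ω) (ν T : ℝ) (hν : 0 < ν)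
    (u₀ : E3 → E3) (f u : ℝ → E3 → E3) (G : ℝ → Fin 3 → E3 → E3)
    (h : WeakSolution Ω ν T u₀ f u G) :
    (∀ t ∈ Ioc 0 T, DissipationCritical Ω G t → NoLoss Ω u t) ∧
    ∀ C : Set ℝ, C.Countable →
      (∀ t ∈ Ioc 0 T, TypeISup Ω u G t ∨ (t ∈ C ∧ DissipationCritical Ω G t)) →
        ∀ t ∈ Icc 0 T, energyLeft Ω ν u G t = energyRight Ω f u t := by
  have h1 : ∀ t ∈ Ioc 0 T, DissipationCritical Ω G t → NoLoss Ω u t := fun t ht hc =>
    noLoss_of_dissipationCritical hΩ hν h.internal ht hc
  refine ⟨h1, fun C hC hI t ht => ?_⟩
  have h2 := Pool.Agent.Helper7.NU.main (S := fun _ : ℕ => (∅ : Set ℝ))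
    (β := fun _ : ℕ => (1 / 2 : ℝ)) hΩ.isOpen hΩ.bdd hν h.internal hC
    (fun _ => ⟨by norm_num, le_refl _⟩) (fun _ => by simp) (fun s hs => by
      rcases hI s hs with h3 | ⟨h3, h4⟩
      · exact Or.inl h3
      · exact Or.inr (Or.inr ⟨h3, h1 s hs h4⟩)) t ht
  unfold defect at h2
  unfold energyLeft energyRight
  linarith

end Pool.Agent.Results.MP_a38b17_an.CriticalDissipation
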