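import Pool.Agent.Helper60.EC.G8

/-!
# No loss of energy at the energy-critical rate

Let `u` be a Leray-Hopf weak solution in a smooth bounded domain, exactly in the class of the
problem (energy inequality from the time `0` only). If kinetic energy is lost at `t₀` from the
left, dimensional analysis and a comparison argument force `‖∇u(s)‖² ≥ c (t₀ - s)^(-4/5)`; the
flow then has the time scale `t₀ - s`, the length scale `(t₀ - s)^(2/5)` and the velocity scale
`(t₀ - s)^(-3/5)`. We show that exactly this energy-critical rate is impossible: if
`|∇u(s)| ≤ C / (t₀ - s)` and `‖∇u(s)‖² ≤ C (t₀ - s)^(-4/5)` on long windows of times before `t₀`,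
with an arbitrary constant `C`, then no kinetic energy is lost at `t₀`. This excludes every
self-similar or discretely self-similar collapse which loses energy, in the interior and at the
boundary.

Proof idea. The rescaled flows at times `t_j → t₀` converge (the viscosity disappears in the limit)
to an ancient solution `v` of the Euler equations on `(-∞, 0) × ℝ³` (in the case of a boundary:
after a reflection) of finite energy, with `|∇v(s)| ≤ C / |s|`, `v(s) ⇀ 0` as `s → 0`; it conserves
its energy, and by the bound of `‖∇v(s)‖` the limit energy has an atom. A second blow-up at the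
atom gives a flow whose whole energy concentrates at the origin. Away from the origin the
solenoidal part of `v(s)`, measured in a localised dual norm of the curl, vanishes to infinite
order as `s → 0`; since the vorticity is stretched at most by a power of `|s|` along the
trajectories, it vanishes on all trajectories which do not reach the origin, that is, almost
everywhere, and `v = 0`, a contradiction.
-/

open Set MeasureTheory

namespace Pool.Agent.Results.MP_a38b17_an.CriticalRateTimes

open Pool.Agent.Helper52.NSE Pool.Agent.Helper7.NT Pool.Agent.Helper7.NU Pool.Agent.Helper60.EC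

/-- Let `u` be a Leray-Hopf weak solution on `[0, T]` in a smooth bounded domain. At a time which
is approached at the energy-critical rate no kinetic energy is lost from the left. If every time
`t ∈ (0, T]` is of Type I, or lies in a countable set and is approached at the energy-critical
rate, then the energy equality holds at every time of `[0, T]`. -/
theorem result (Ω : Set E3) (hΩ : IsSmoothBoundedDomain Ω) (ν T : ℝ) (hν : 0 < ν)
    (u₀ : E3 → E3) (f u : ℝ → E3 → E3) (G : ℝ → Fin 3 → E3 → E3)
    (h : WeakSolution Ω ν T u₀ f u G) :
    (∀ t ∈ Ioc 0 T, CriticalRate Ω G t → NoLoss Ω u t) ∧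
    ∀ C : Set ℝ, C.Countable →
      (∀ t ∈ Ioc 0 T, TypeISup Ω u G t ∨ (t ∈ C ∧ CriticalRate Ω G t)) →
        ∀ t ∈ Icc 0 T, energyLeft Ω ν u G t = energyRight Ω f u t := by
  have h1 : ∀ t ∈ Ioc 0 T, CriticalRate Ω G t → NoLoss Ω u t := fun t ht hc =>
    noLoss_of_criticalRate hΩ hν h.internal ht hc
  refine ⟨h1, fun C hC hI t ht => ?_⟩
  have h2 := Pool.Agent.Helper7.NU.main (S := fun _ : ℕ => (∅ : Set ℝ))
    (β := fun _ : ℕ => (1 / 2 : ℝ)) hΩ.isOpen hΩ.bdd hν h.internal hC
    (fun _ => ⟨by norm_num, le_refl _⟩) (fun _ => by simp) (fun s hs => by
      rcases hI s hs with h3 | ⟨h3, h4⟩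
      · exact Or.inl h3
      · exact Or.inr (Or.inr ⟨h3, h1 s hs h4⟩)) t ht
  unfold defect at h2
  unfold energyLeft energyRight
  linarith

end Pool.Agent.Results.MP_a38b17_an.CriticalRateTimes
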