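import Pool.Agent.Helper7.NU.Fin

/-!
# Energy equality for Leray-Hopf weak solutions: Type I times and small sets of Type II times

Let `u` be a Leray-Hopf weak solution in a bounded open set `Ω ⊆ ℝ³`, exactly in the class of the
problem: only the energy inequality started at the time `0` is assumed, not the strong one.
Suppose that every time `t ∈ (0, T]` satisfies one of the following conditions (as `s → t-`).

* `t` is of Type I: `∫_s^t ‖∇u‖² = O((t - s)^(1/2))`, or, for some `q ∈ [3, ∞]`,
  `‖u(s)‖_{L^q} = O((t - s)^(-(1 - 3/q)/2))` for almost every `s`. The constants depend on `t`.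
* `t` belongs to a set of `β`-dimensional Hausdorff measure zero, `0 < β ≤ 1/2` (countably many
  sets and exponents are allowed), `∫_s^t ‖∇u‖² = O((t - s)^((1 + 3β)/5))` and
  `∫_s^t ‖f‖² = O((t - s)^β)`.
* `t` belongs to a countable set and no kinetic energy is lost at `t` from the left.

Then the energy equality holds at all times of `[0, T]`. The exponents `(1 + 3β)/5` interpolate
between `1/2` (Type I, `β = 1/2`) and `1/5` (a jump of the energy, `β = 0`), and are those of the
dimensional analysis of a defect of dimension `β` in time.

Proof idea. Let `D` be the defect of the energy inequality, `a = u(s)`, `w = u - a`. The equations,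
tested with `a`, express `D(τ) - D(s) + ½ ‖w(τ)‖²` by linear terms and the flux
`∫ (u · ∇) a · w`. Without the strong energy inequality `sup ‖w‖²` cannot be bounded, but the flux
is bounded by the weighted mean square of `w`, and the identity, averaged over `τ` with the weight
`(t - τ)^(-1/2)`, bounds this mean by the weighted mean of `φ = max (D(t) - D(·), 0)`. So `φ`
satisfies an integral inequality at almost every `s < t`, and Hardy's inequality with the weight
`(t - s)^(-3/4)` turns it into `φ(s) ≤ M ∫_s^t (1 + ‖∇u‖² + ‖f‖²)` for suitable `s → t-` (Type I),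
respectively `φ(s) ≤ M (t - s)^β` for some `s` at every scale. A monotonicity theorem for real
functions with such left difference quotients finishes the proof.
-/

open Set MeasureTheory

namespace Pool.Agent.Results.MP_a38b17_an.SmallTypeTwoSets

open Pool.Agent.Helper52.NSE Pool.Agent.Helper7.NT Pool.Agent.Helper7.NU

/-- Let `u` be a Leray-Hopf weak solution on `[0, T]` in a bounded open set. If every `t ∈ (0, T]`
is of Type I from the left, or lies in a set of `β`-dimensional Hausdorff measure zero and the
dissipation and the force have the orders `(1 + 3β)/5` and `β` at `t`, or lies in a countable set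
and no kinetic energy is lost at `t`, then the energy equality holds at every time of `[0, T]`. -/
theorem result (Ω : Set E3) (hO : IsOpen Ω) (hb : Bornology.IsBounded Ω) (ν T : ℝ) (hν : 0 < ν)
    (u₀ : E3 → E3) (f u : ℝ → E3 → E3) (G : ℝ → Fin 3 → E3 → E3)
    (h : WeakSolution Ω ν T u₀ f u G)
    (S : ℕ → Set ℝ) (β : ℕ → ℝ) (hβ : ∀ n, 0 < β n ∧ β n ≤ 1 / 2)
    (hS : ∀ n, Measure.hausdorffMeasure (β n) (S n) = 0)
    (C : Set ℝ) (hC : C.Countable)
    (hI : ∀ t ∈ Ioc 0 T, TypeISup Ω u G t ∨
      (∃ n, t ∈ S n ∧ DissipationOrder Ω G ((1 + 3 * β n) / 5) t ∧ ForceOrder Ω f (β n) t) ∨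
      (t ∈ C ∧ NoLoss Ω u t)) :
    ∀ t ∈ Icc 0 T, energyLeft Ω ν u G t = energyRight Ω f u t := by
  intro t ht
  have h1 := main hO hb hν h.internal hC hβ hS hI t ht
  unfold defect at h1
  unfold energyLeft energyRight
  linarith

end Pool.Agent.Results.MP_a38b17_an.SmallTypeTwoSets
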