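import Pool.Agent.Helper83.WC.All

/-!
# Energy equality in weak-in-time Lebesgue spaces, including the endpoints

Let `u` be a Leray-Hopf weak solution in a smooth bounded domain, exactly in the class of the
problem (energy inequality from the time `0` only). We show that the energy equality holds if each
time `t ∈ (0, T]` satisfies one of the following conditions, with constants, exponents and `δ > 0`
depending on `t`, without any uniformity:

* `∇u ∈ L^{5/2,∞}(t - δ, t; L²)` (weak Lebesgue space in time),
* `u ∈ L^{q,∞}(t - δ, t; L^p)` for some `p ∈ (3, ∞]` with `1/q = min (1/2 - 1/p, 1 - 3/p)`,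
* `t` is of Type I,
* `t` lies in a countable set and `liminf_{s → t-} (t - s)^(-1/5) ∫_s^t ‖∇u‖² < ∞`.

In particular it holds for `u ∈ L^{4,∞}(0, T; L⁴)`, the weak endpoint of the class of Lions, which
contains (by interpolation with the energy class) the weak-in-time versions of all the classes of
Shinbrot and of Beirão da Veiga and Yang, and for `∇u ∈ L^{5/2,∞}(0, T; L²)`, the weak endpoint of
the critical gradient class.

Proof idea. Let `D` be the defect of the energy inequality and `m` its running maximum. By the
first results on single times (for the gradient class the theorem of the file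
`CriticalDissipation`) `D` has no jumps upwards, so `m` is continuous, and its Stieltjes measure `μ`
is singular, since the left difference quotients of `D` have a nonpositive lower limit almost
everywhere. From the identity for the energy of `u - u(s)`, for a good time `s` of a window `w` of
length `2 r`, one finds two bounds for the increase of `D`,
`C (∫_w ‖∇u‖²)^(5/3) r^(-1/3)` and `C (r⁻¹ ∫_w ‖∇u‖²)^(1/2) ∫_w ‖u‖₄²`, up to
`C ∫_w (‖∇u‖² + ‖f‖)`, which is negligible as `μ` is singular. In the gradient class the sum of the
first bound over the cells of a grid is small by counting, as `μ` has no atoms. In the class of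
Lions the second bound sums up to a logarithmic divergence on a grid; but if the windows are those
at which the mean density of `μ` first exceeds a level `l`, the windows with a large
`∫_w ‖u‖₄² / r` contribute little by the weak bound, the others by the smallness of `∫ ‖∇u‖²` near
the null set that carries `μ`. So `μ = 0`.
-/

open Set MeasureTheory

namespace Pool.Agent.Results.MP_a38b17_an.WeakTimeClasses

open Pool.Agent.Helper52.NSE Pool.Agent.Helper7.NU Pool.Agent.Helper83.CR
  Pool.Agent.Helper83.WC

/-- Let `u` be a Leray-Hopf weak solution on `[0, T]` in a smooth bounded domain. Suppose that each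
`t ∈ (0, T]` is of Type I, or `∇u ∈ L^{5/2,∞}(t - δ, t; L²)` for some `δ > 0`, or
`u ∈ L^{q,∞}(t - δ, t; L^p)` for some `δ > 0`, `p ∈ (3, ∞]` and `1/q = min (1/2 - 1/p, 1 - 3/p)`, or
`t` lies in the countable set `C` and
`liminf_{s → t-} (t - s)^(-1/5) ∫_s^t ‖∇u‖² < ∞`. Then the energy equality holds at every time of
`[0, T]`. -/
theorem result (Ω : Set E3) (hΩ : IsSmoothBoundedDomain Ω) (ν T : ℝ) (hν : 0 < ν)
    (u₀ : E3 → E3) (f u : ℝ → E3 → E3) (G : ℝ → Fin 3 → E3 → E3)
    (h : WeakSolution Ω ν T u₀ f u G) (C : Set ℝ) (hC : C.Countable)
    (hI : ∀ t ∈ Ioc 0 T, TypeISup Ω u G t ∨ WeakGradient Ω G t ∨ WeakLions Ω u t ∨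
      (t ∈ C ∧ DissipationCritical Ω G t)) :
    ∀ t ∈ Icc 0 T, energyLeft Ω ν u G t = energyRight Ω f u t := by
  intro t ht
  have h2 := all_main hΩ hν h.internal hC hI t ht
  unfold defect at h2
  unfold energyLeft energyRight
  linarith

end Pool.Agent.Results.MP_a38b17_an.WeakTimeClasses
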